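import Mathlib
import Pool.Agent.H659R3.CT.TopStmts

set_option autoImplicit false
set_option maxHeartbeats 4000000

/-! Project H659-CT: Eckmann and Hilton for loops of loops. -/

namespace Pool.Agent.H659R3.CT

open unitInterval Topology

noncomputable section

namespace EH

theorem cast_hom {X : Type*} [TopologicalSpace X] {x y x' y' : X} {p q : Path x y}
    (h : p.Homotopic q) (hx : x' = x) (hy : y' = y) :
    (p.cast hx hy).Homotopic (q.cast hx hy) := by
  subst hx; subst hy; exact h

theorem cast_trans {X : Type*} [TopologicalSpace X] {x y z x' y' z' : X} (p : Path x y)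
    (q : Path y z) (hx : x' = x) (hy : y' = y) (hz : z' = z) :
    (p.trans q).cast hx hz = (p.cast hx hy).trans (q.cast hy hz) := by
  subst hx; subst hy; subst hz; rfl

variable {M : Type} [TopologicalSpace M] {m : M}

theorem cv_mem (f : I → I) (s u : I) : (1 - (s : ℝ)) * u + s * f u ∈ I := by
  have hs0 := s.2.1
  have hs1 := s.2.2
  have hu0 := u.2.1
  have hu1 := u.2.2
  have hf0 := (f u).2.1
  have hf1 := (f u).2.2
  constructor
  · have h1 : 0 ≤ (1 - (s : ℝ)) * u := mul_nonneg (by linarith) hu0
    have h2 : 0 ≤ (s : ℝ) * f u := mul_nonneg hs0 hf0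
    linarith
  · have h1 : (1 - (s : ℝ)) * u ≤ (1 - s) * 1 := mul_le_mul_of_nonneg_left hu1 (by linarith)
    have h2 : (s : ℝ) * f u ≤ s * 1 := mul_le_mul_of_nonneg_left hf1 hs0
    linarith

/-- convex combination of the identity and `f` -/
def cv (f : I → I) (s u : I) : I := ⟨(1 - (s : ℝ)) * u + s * f u, cv_mem f s u⟩

theorem cv_cont (f : I → I) (hf : Continuous f) : Continuous fun q : I × I => cv f q.1 q.2 := by
  unfold cv
  refine Continuous.subtype_mk ?_ _
  have h1 : Continuous fun q : I × I => ((f q.2 : I) : ℝ) :=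
    continuous_subtype_val.comp (hf.comp continuous_snd)
  fun_prop

theorem cv_zero (f : I → I) (u : I) : cv f 0 u = u := by
  apply Subtype.ext
  simp [cv]

theorem cv_one (f : I → I) (u : I) : cv f 1 u = f u := by
  apply Subtype.ext
  simp [cv]

theorem cv_left (f : I → I) (h0 : f 0 = 0) (s : I) : cv f s 0 = 0 := by
  apply Subtype.ext
  simp [cv, h0]

theorem cv_right (f : I → I) (h1 : f 1 = 1) (s : I) : cv f s 1 = 1 := by
  apply Subtype.ext
  simp [cv, h1]

/-- the reparametrised path -/
def rp (f : I → I) (hf : Continuous f) (h0 : f 0 = 0) (h1 : f 1 = 1) (s : I) (p : Path m m) :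
    Path m m where
  toFun u := p (cv f s u)
  continuous_toFun := p.continuous.comp ((cv_cont f hf).comp (by fun_prop : Continuous fun u : I => (s, u)))
  source' := by rw [cv_left f h0]; exact p.source
  target' := by rw [cv_right f h1]; exact p.target

theorem rp_apply (f : I → I) (hf : Continuous f) (h0 : f 0 = 0) (h1 : f 1 = 1) (s : I)
    (p : Path m m) (u : I) : rp f hf h0 h1 s p u = p (cv f s u) := rfl

theorem rpH (f : I → I) (hf : Continuous f) (h0 : f 0 = 0) (h1 : f 1 = 1)
    (ν ν' : Path (Path.refl m) (Path.refl m)) (h : ∀ t u, ν' t u = ν t (f u)) :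
    ν.Homotopic ν' := by
  have hc : Continuous fun q : I × I => rp f hf h0 h1 q.1 (ν q.2) := by
    rw [← Path.continuous_uncurry_iff]
    have h2 : Continuous fun r : Path m m × I => r.1 r.2 := by
      have := (Path.continuous_uncurry_iff (x := m) (y := m)
        (g := fun p : Path m m => p)).2 continuous_id
      exact this
    have h3 : Continuous fun q : (I × I) × I => (ν q.1.2, cv f q.1.1 q.2) := by
      refine Continuous.prodMk (ν.continuous.comp (by fun_prop)) ?_
      exact (cv_cont f hf).comp (by fun_prop : Continuous fun q : (I × I) × I => (q.1.1, q.2))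
    exact h2.comp h3
  refine ⟨⟨⟨⟨fun q => rp f hf h0 h1 q.1 (ν q.2), hc⟩, ?_, ?_⟩, ?_⟩⟩
  · intro t
    apply Path.ext
    funext u
    show ν t (cv f 0 u) = ν t u
    rw [cv_zero]
  · intro t
    apply Path.ext
    funext u
    show ν t (cv f 1 u) = ν' t u
    rw [cv_one, h]
  · intro s t ht
    apply Path.ext
    funext u
    show ν t (cv f s u) = ν t u
    rcases ht with ht | ht
    · rw [ht, ν.source]; rfl
    · rw [Set.mem_singleton_iff.1 ht, ν.target]; rfl

theorem ptr_trans {a a' a'' b b' b'' : Path m m} (N : Path a a') (N2 : Path a' a'')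
    (K : Path b b') (K2 : Path b' b'') :
    ptr (N.trans N2) (K.trans K2) = (ptr N K).trans (ptr N2 K2) := by
  apply Path.ext
  funext t
  show ((N.trans N2) t).trans ((K.trans K2) t) = _
  rw [Path.trans_apply, Path.trans_apply, Path.trans_apply]
  split_ifs <;> rfl

theorem ptr_hom {a a' b b' : Path m m} {N N2 : Path a a'} {K K2 : Path b b'}
    (hN : N.Homotopic N2) (hK : K.Homotopic K2) : (ptr N K).Homotopic (ptr N2 K2) := by
  obtain ⟨F⟩ := hN
  obtain ⟨G⟩ := hK
  have hc : Continuous fun q : I × I => (F q).trans (G q) := by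
    have h : Continuous fun q : Path m m × Path m m => q.1.trans q.2 := Path.continuous_trans
    exact h.comp (F.continuous.prodMk G.continuous)
  refine ⟨⟨⟨⟨fun q => (F q).trans (G q), hc⟩, ?_, ?_⟩, ?_⟩⟩
  · intro t
    show (F (0, t)).trans (G (0, t)) = (N t).trans (K t)
    rw [F.apply_zero, G.apply_zero]; rfl
  · intro t
    show (F (1, t)).trans (G (1, t)) = (N2 t).trans (K2 t)
    rw [F.apply_one, G.apply_one]; rfl
  · intro s t ht
    show (F (s, t)).trans (G (s, t)) = (N t).trans (K t)
    rw [F.prop' s t ht |> fun h => (show F (s, t) = N t from h),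
      G.prop' s t ht |> fun h => (show G (s, t) = K t from h)]

/-- reparametrisation for `p.trans refl` -/
def f1 (u : I) : I := Set.projIcc 0 1 zero_le_one (2 * (u : ℝ))

/-- reparametrisation for `refl.trans p` -/
def f2 (u : I) : I := Set.projIcc 0 1 zero_le_one (2 * (u : ℝ) - 1)

theorem f1_cont : Continuous f1 := continuous_projIcc.comp (by fun_prop)

theorem f2_cont : Continuous f2 := continuous_projIcc.comp (by fun_prop)

theorem f1_zero : f1 0 = 0 := by
  apply Subtype.ext; simp [f1, Set.projIcc]

theorem f1_one : f1 1 = 1 := by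
  apply Subtype.ext; simp [f1, Set.projIcc]

theorem f2_zero : f2 0 = 0 := by
  apply Subtype.ext; simp [f2, Set.projIcc]

theorem f2_one : f2 1 = 1 := by
  apply Subtype.ext; simp [f2, Set.projIcc]; norm_num

theorem trans_refl_f1 (p : Path m m) (u : I) : (p.trans (Path.refl m)) u = p (f1 u) := by
  rw [Path.trans_apply]
  split_ifs with h
  · congr 1
    apply Subtype.ext
    have h0 := u.2.1
    show 2 * (u : ℝ) = (Set.projIcc 0 1 zero_le_one (2 * (u : ℝ)) : I)
    rw [Set.projIcc_of_mem zero_le_one (show 2 * (u : ℝ) ∈ Set.Icc (0 : ℝ) 1 from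
      ⟨by linarith, by linarith⟩)]
  · have h2 : f1 u = 1 := Set.projIcc_of_right_le zero_le_one (by linarith [not_le.1 h])
    rw [h2, p.target]; rfl

theorem refl_trans_f2 (p : Path m m) (u : I) : ((Path.refl m).trans p) u = p (f2 u) := by
  rw [Path.trans_apply]
  split_ifs with h
  · have h2 : f2 u = 0 := Set.projIcc_of_le_left zero_le_one (by linarith)
    rw [h2, p.source]; rfl
  · congr 1
    apply Subtype.ext
    have h0 := u.2.2
    show 2 * (u : ℝ) - 1 = (Set.projIcc 0 1 zero_le_one (2 * (u : ℝ) - 1) : I)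
    rw [Set.projIcc_of_mem zero_le_one (show 2 * (u : ℝ) - 1 ∈ Set.Icc (0 : ℝ) 1 from
      ⟨by linarith [not_le.1 h], by linarith⟩)]

theorem left_hom (ν : Path (Path.refl m) (Path.refl m)) :
    ν.Homotopic ((ptr ν (Path.refl (Path.refl m))).cast (Path.refl_trans_refl).symm
      (Path.refl_trans_refl).symm) := by
  apply rpH f1 f1_cont f1_zero f1_one
  intro t u
  exact trans_refl_f1 (ν t) u

theorem right_hom (ν : Path (Path.refl m) (Path.refl m)) :
    ν.Homotopic ((ptr (Path.refl (Path.refl m)) ν).cast (Path.refl_trans_refl).symm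
      (Path.refl_trans_refl).symm) := by
  apply rpH f2 f2_cont f2_zero f2_one
  intro t u
  exact refl_trans_f2 (ν t) u

theorem hom1 (ν μ : Path (Path.refl m) (Path.refl m)) :
    ((ptr ν μ).cast (Path.refl_trans_refl).symm (Path.refl_trans_refl).symm).Homotopic
      (ν.trans μ) := by
  have h1 : ν.Homotopic (ν.trans (Path.refl _)) := ⟨(Path.Homotopy.transRefl ν).symm⟩
  have h2 : μ.Homotopic ((Path.refl _).trans μ) := ⟨(Path.Homotopy.reflTrans μ).symm⟩
  have h3 := ptr_hom h1 h2
  rw [ptr_trans] at h3
  have h4 := cast_hom h3 (Path.refl_trans_refl (X := M) (a := m)).symm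
    (Path.refl_trans_refl (X := M) (a := m)).symm
  rw [cast_trans _ _ _ (Path.refl_trans_refl (X := M) (a := m)).symm _] at h4
  exact h4.trans (Path.Homotopic.hcomp (left_hom ν).symm (right_hom μ).symm)

theorem hom2 (ν μ : Path (Path.refl m) (Path.refl m)) :
    ((ptr ν μ).cast (Path.refl_trans_refl).symm (Path.refl_trans_refl).symm).Homotopic
      (μ.trans ν) := by
  have h1 : ν.Homotopic ((Path.refl _).trans ν) := ⟨(Path.Homotopy.reflTrans ν).symm⟩
  have h2 : μ.Homotopic (μ.trans (Path.refl _)) := ⟨(Path.Homotopy.transRefl μ).symm⟩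
  have h3 := ptr_hom h1 h2
  rw [ptr_trans] at h3
  have h4 := cast_hom h3 (Path.refl_trans_refl (X := M) (a := m)).symm
    (Path.refl_trans_refl (X := M) (a := m)).symm
  rw [cast_trans _ _ _ (Path.refl_trans_refl (X := M) (a := m)).symm _] at h4
  exact h4.trans (Path.Homotopic.hcomp (right_hom μ).symm (left_hom ν).symm)

end EH

theorem taskEH : TaskEH := by
  intro M _ m ν μ
  exact ⟨EH.hom1 ν μ, (EH.hom1 ν μ).symm.trans (EH.hom2 ν μ)⟩

end

end Pool.Agent.H659R3.CT
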