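import Mathlib
import Pool.Agent.H659R3.CT.FinTop
import Pool.Agent.H600R3.CT.EHa
import Pool.Agent.H600R3.CT.EHgen
import Pool.Agent.H659R3.CT.FillP
import Pool.Agent.H659R3.CT.TaskCommOf
import Pool.Agent.H659R3.CT.TaskPLOf
import Pool.Agent.H659R3.CT.TaskEPOf
import Pool.Agent.H659R3.CT.TaskCon
import Pool.Agent.H659R3.CT.TaskNull
import Pool.Agent.H659R3.CT.TaskContrOf
import Pool.Agent.H659R3.CT.BG
import Pool.Agent.H659R3.CT.TaskMap
import Pool.Agent.H659R3.CT.TaskModelOf
import Pool.Agent.H659R3.CT.TaskStable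
import Pool.Agent.H659R3.CT.FP
import Pool.Agent.H659R3.CT.Base
import Pool.Agent.H659R3.CT.HNN699
import Pool.Agent.H659R3.CT.TaskTriv
import Pool.Agent.H659R3.CT.KXOf
import Pool.Agent.H659R3.CT.SqDom
import Pool.Agent.H659R3.CT.TaskCn
import Pool.Agent.H659R3.CT.TaskDisc
import Pool.Agent.H600R3.CT.SqAB
import Pool.Agent.H659R3.CT.TaskCyDom
import Pool.Agent.H659R3.CT.TaskPrism
import Pool.Agent.H659R3.CT.TaskGph
import Pool.Agent.H659R3.CT.TaskPoly
import Pool.Agent.H659R3.CT.Trans
import Pool.Agent.H659R3.CT.TaskKLOf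
import Pool.Agent.H659R3.CT.TaskNC2Of
import Pool.Agent.H659R3.CT.TaskDim
import Pool.Agent.H659R3.CT.CompSimp

set_option autoImplicit false
set_option maxHeartbeats 4000000

/-! Project H659-CT: assembly of the simplicial statement. -/

namespace Pool.Agent.H600R3.CT

open Pool.Agent.H659R3.CT unitInterval

theorem contr_of_dom {A B : Type} [TopologicalSpace A] [TopologicalSpace B] {a : A} {b : B}
    {ι : Type} {γ : ι → Path a a} {δ : ι → Path b b} (h : Dom A B a b γ δ)
    (hB : ContractibleSpace B) : ContractibleSpace A := by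
  obtain ⟨i, r, hi, hr, H, H0, H1, Hs, Hl⟩ := h
  rw [contractible_iff_id_nullhomotopic]
  obtain ⟨y, hy⟩ := id_nullhomotopic B
  refine ⟨r y, ?_⟩
  have h1 : (r.comp i).Homotopic (ContinuousMap.id A) :=
    ⟨{ toFun := fun p => H p
       continuous_toFun := H.continuous
       map_zero_left := fun x => H0 x
       map_one_left := fun x => H1 x }⟩
  have h2 : (r.comp ((ContinuousMap.id B).comp i)).Homotopic
      (r.comp ((ContinuousMap.const B y).comp i)) :=
    ContinuousMap.Homotopic.comp (ContinuousMap.Homotopic.refl r)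
      (ContinuousMap.Homotopic.comp hy (ContinuousMap.Homotopic.refl i))
  exact h1.symm.trans h2

theorem null_of_dom {A B : Type} [TopologicalSpace A] [TopologicalSpace B] {a : A} {b : B}
    {ι : Type} {γ : ι → Path a a} {δ : ι → Path b b} (h : Dom A B a b γ δ)
    (hA : ContractibleSpace A) (j : ι) : (δ j).Homotopic (Path.refl b) := by
  obtain ⟨i, r, hi, hr, H, H0, H1, Hs, Hl⟩ := h
  subst hi
  have h1 : (γ j).Homotopic (Path.refl a) := SimplyConnectedSpace.paths_homotopic _ _
  have h2 : ((γ j).map i.continuous).Homotopic ((Path.refl a).map i.continuous) := h1.map i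
  have h3 := Hl j
  exact h3.symm.trans h2

theorem finalSimp : FinalSimp := by
  have hM : TaskModel := taskModel taskHNN taskFP taskBase taskStable
  have hCon : TaskContr := taskContr taskNull (taskComm taskEHgen taskFill)
    (taskEP taskFill (taskPL taskEH)) taskCon
  have hN : TaskNC2 := taskNC2 taskMap taskBG hM
  have hKX : TaskKX := taskKX
    (taskKL taskDisc taskCn taskSqDom taskSqAB taskGph taskPoly taskTrans) taskDisc taskCn
    taskSqDom taskSqAB taskPoly taskTrans taskPrism taskCyDom
  rintro ⟨f, hf, hX⟩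
  obtain ⟨m, R, W, hW, hR⟩ := Pool.Agent.Helper270.WP.word_problem
  apply hR
  let S := R.toList.map FreeGroup.toWord
  have hS : RS S = (R : Set (FreeGroup (Fin m))) := rs_toWord R
  have key : ∀ n, (f (kX m S (W n)) = true ↔ FreeGroup.mk (W n) ∈
      Subgroup.normalClosure (R : Set (FreeGroup (Fin m)))) := by
    intro n
    rw [hX _ (taskDim m S (W n)), ← hS]
    obtain ⟨b, γ, hdom⟩ := hKX m S (W n)
    constructor
    · intro h
      by_contra hn
      have hpos : 0 < NX m := by unfold NX; omega
      exact hN m S (W n) hn ⟨0, hpos⟩ rfl (null_of_dom hdom h ⟨0, hpos⟩)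
    · intro h
      exact contr_of_dom hdom (hCon m S (W n) (taskTriv m S (W n) h))
  have hg : Computable fun n => f (kX m S (W n)) := hf.comp (taskCompSimp m S W hW)
  exact ComputablePred.computable_iff.2 ⟨_, hg, by
    funext n
    exact propext (key n).symm⟩

end Pool.Agent.H600R3.CT
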